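import Pool.Agent.V1193.LpCross

/-!
# Full and reduced `L^p` crossed product norms agree for finite groups

For a covariant representation `(v, π)` the operator `(U ξ)(h) = v_h ξ(h)` on `ℓ^p(G, L^p(X))` is an
isometry which turns the regular covariant representation attached to `π` into `(λ_g ⊗ v_g, 1 ⊗ π)`, and
the latter acts on constant vectors as `(v, π)`.
-/

set_option autoImplicit false

namespace Pool.Agent.Results.MP_579095_an.FullReduced

open MeasureTheory Pool.Agent.V1193.LpCross
open scoped ENNReal

universe u w

/-- For every `p ∈ [1, ∞)`, every finite group `G`, every normed algebra `A` and every action of `G` on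
`A` by isometric automorphisms the full and the reduced `L^p` crossed product norms agree on
`C(G, A, α)`. -/
theorem result {A : Type w} [NonUnitalNormedRing A] [NormedSpace ℂ A] {G : Type} [Group G] [Fintype G]
    (α : IsoAction G A) (p : ℝ≥0∞) [Fact (1 ≤ p)] (hp : p ≠ ⊤) (a : G → A) :
    fullNorm.{u} p α a = reducedNorm.{u} p α a :=
  full_eq_reduced p α hp a

end Pool.Agent.Results.MP_579095_an.FullReduced
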